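import Pool.Agent.Helper37.BP.Defs2
import Pool.Agent.Helper38.BAP.Glow

/-! Part GLT of the BAP2 project (MP_6f6997_an): trace lower bound for `gTop`. -/

open MeasureTheory
open scoped ENNReal NNReal

set_option maxSynthPendingDepth 3

namespace Pool.Agent.H25.BAP

open Pool.Agent.BAPp (sgn weakNorm gNorm FiniteRank)
open Pool.Agent.Helper37.BP
open Pool.Agent.Helper38.BAP (trace_indep)

/-- domination of the weak `ℓ_1` families: the key estimate -/
theorem sum_norm_le (p q : ℝ) (hpq : p.HolderConjugate q) {Y X : Type} [NormedAddCommGroup Y]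
    [NormedSpace ℝ Y] [NormedAddCommGroup X] [NormedSpace ℝ X] (C' M : ℝ) (hC' : 1 ≤ C')
    (hM : 0 < M) (hdom : LinfDom p C' X) (u : X →ₗ[ℝ] Y)
    (hu : ∀ (n : ℕ) (xs : Fin n → X),
      (∀ f : X →L[ℝ] ℝ, ‖f‖ ≤ 1 → ∑ k, |f (xs k)| ^ q ≤ 1) → ∑ k, ‖u (xs k)‖ ^ q ≤ M ^ q)
    (n : ℕ) (xs : Fin n → X) (W : ℝ) (hW : 0 < W)
    (hx : ∀ f : X →L[ℝ] ℝ, ‖f‖ ≤ 1 → ∑ k, |f (xs k)| ≤ W) :
    ∑ k, ‖u (xs k)‖ ≤ C' * M * W := by
  have hq1 : 1 < q := hpq.symm.lt
  have hq0 : 0 < q := by linarith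
  have hp1 : 1 < p := hpq.lt
  have hp0 : 0 < p := by linarith
  have hC0 : 0 < C' := by linarith
  obtain ⟨w, hw0, hw1, hw⟩ := hdom n (fun k => W⁻¹ • xs k) (by
    intro t ht
    refine NormedSpace.norm_le_dual_bound ℝ _ (by norm_num) ?_
    intro f
    rw [one_mul]
    rcases eq_or_ne f 0 with hf | hf
    · simp [hf]
    have hfn : 0 < ‖f‖ := norm_pos_iff.2 hf
    have h1 := hx (‖f‖⁻¹ • f) (by
      rw [norm_smul, norm_inv, norm_norm, inv_mul_cancel₀ hfn.ne'])
    have h2 : ∑ k, |f (xs k)| ≤ W * ‖f‖ := by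
      have h3 : ∑ k, |(‖f‖⁻¹ • f) (xs k)| = ‖f‖⁻¹ * ∑ k, |f (xs k)| := by
        rw [Finset.mul_sum]
        refine Finset.sum_congr rfl fun k _ => ?_
        rw [smul_apply, smul_eq_mul, abs_mul,
          abs_of_pos (inv_pos.2 hfn)]
      rw [h3] at h1
      calc ∑ k, |f (xs k)| = ‖f‖ * (‖f‖⁻¹ * ∑ k, |f (xs k)|) := by
            rw [← mul_assoc, mul_inv_cancel₀ hfn.ne', one_mul]
        _ ≤ ‖f‖ * W := mul_le_mul_of_nonneg_left h1 hfn.le
        _ = W * ‖f‖ := mul_comm _ _
    rw [map_sum, Real.norm_eq_abs]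
    calc |∑ i, f (t i • W⁻¹ • xs i)| ≤ ∑ i, |f (t i • W⁻¹ • xs i)| :=
          Finset.abs_sum_le_sum_abs _ _
      _ ≤ ∑ i, W⁻¹ * |f (xs i)| := by
          apply Finset.sum_le_sum
          intro i _
          rw [map_smul, map_smul, smul_eq_mul, smul_eq_mul, abs_mul, abs_mul,
            abs_of_pos (inv_pos.2 hW)]
          have h4 : 0 ≤ W⁻¹ * |f (xs i)| := by positivity
          exact mul_le_of_le_one_left h4 (ht i)
      _ = W⁻¹ * ∑ i, |f (xs i)| := by rw [Finset.mul_sum]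
      _ ≤ W⁻¹ * (W * ‖f‖) := mul_le_mul_of_nonneg_left h2 (inv_pos.2 hW).le
      _ = ‖f‖ := by rw [← mul_assoc, inv_mul_cancel₀ hW.ne', one_mul])
  -- the normalised family
  set x' : Fin n → X := fun k => (w k ^ (-(1 / p)) * (W * C')⁻¹) • xs k with hx'
  have hzero : ∀ k, w k = 0 → xs k = 0 := by
    intro k hk
    have h1 := hw (Pi.single k 1)
    have h2 : ∑ i, (Pi.single k (1 : ℝ) : Fin n → ℝ) i • W⁻¹ • xs i = W⁻¹ • xs k := by
      rw [Finset.sum_eq_single k]
      · rw [Pi.single_eq_same, one_smul]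
      · intro b _ hb
        rw [Pi.single_eq_of_ne hb, zero_smul]
      · intro h; exact absurd (Finset.mem_univ k) h
    have h3 : ∑ i, w i * |(Pi.single k (1 : ℝ) : Fin n → ℝ) i| ^ p = 0 := by
      refine Finset.sum_eq_zero fun i _ => ?_
      rcases eq_or_ne i k with h | h
      · rw [h, hk, zero_mul]
      · rw [Pi.single_eq_of_ne h, abs_zero, Real.zero_rpow hp0.ne', mul_zero]
    rw [h2, h3, Real.zero_rpow (by positivity), mul_zero] at h1
    have h4 : W⁻¹ • xs k = 0 := norm_eq_zero.1 (le_antisymm h1 (norm_nonneg _))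
    rcases smul_eq_zero.1 h4 with h5 | h5
    · exact absurd h5 (inv_pos.2 hW).ne'
    · exact h5
  have hxk : ∀ k, xs k = (w k ^ (1 / p) * (W * C')) • x' k := by
    intro k
    rcases (hw0 k).eq_or_lt with h | h
    · simp only [hx', hzero k h.symm, smul_zero]
    · rw [hx']
      simp only
      rw [smul_smul]
      have h1 : w k ^ (1 / p) * (W * C') * (w k ^ (-(1 / p)) * (W * C')⁻¹) = 1 := by
        rw [Real.rpow_neg h.le]
        have h2 : w k ^ (1 / p) ≠ 0 := (Real.rpow_pos_of_pos h _).ne'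
        have h3 : W * C' ≠ 0 := (mul_pos hW hC0).ne'
        field_simp
      rw [h1, one_smul]
  have hweak : ∀ f : X →L[ℝ] ℝ, ‖f‖ ≤ 1 → ∑ k, |f (x' k)| ^ q ≤ 1 := by
    intro f hf
    set S : ℝ := ∑ k, |f (x' k)| ^ q with hS
    have hS0 : 0 ≤ S := Finset.sum_nonneg fun k _ => Real.rpow_nonneg (abs_nonneg _) _
    rcases hS0.eq_or_lt with hS1 | hS1
    · rw [← hS1]; norm_num
    set t : Fin n → ℝ := fun k => SignType.sign (f (x' k)) * |f (x' k)| ^ (q - 1) *
      w k ^ (-(1 / p)) with ht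
    have h1 := hw t
    have h2 : f (∑ i, t i • W⁻¹ • xs i) = C' * S := by
      rw [map_sum, hS, Finset.mul_sum]
      refine Finset.sum_congr rfl fun k _ => ?_
      rcases (hw0 k).eq_or_lt with h | h
      · have h3 : x' k = 0 := by rw [hx']; simp only; rw [hzero k h.symm, smul_zero]
        rw [hzero k h.symm, h3]
        simp [Real.zero_rpow hq0.ne']
      · rw [map_smul, map_smul, smul_eq_mul, smul_eq_mul]
        have h3 : f (xs k) = (w k ^ (1 / p) * (W * C')) * f (x' k) := by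
          conv_lhs => rw [hxk k]
          rw [map_smul, smul_eq_mul]
        rw [h3, ht]
        simp only
        have h4 : w k ^ (-(1 / p)) * w k ^ (1 / p) = 1 := by
          rw [← Real.rpow_add h]; simp
        have h5 : (SignType.sign (f (x' k)) : ℝ) * f (x' k) = |f (x' k)| := sign_mul_self _
        have h6 : |f (x' k)| ^ (q - 1) * |f (x' k)| = |f (x' k)| ^ q := by
          rcases (abs_nonneg (f (x' k))).eq_or_lt with h7 | h7
          · rw [← h7, Real.zero_rpow hq0.ne', mul_zero]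
          · rw [← Real.rpow_add_one h7.ne']; congr 1; ring
        calc (SignType.sign (f (x' k)) : ℝ) * |f (x' k)| ^ (q - 1) * w k ^ (-(1 / p)) *
              (W⁻¹ * (w k ^ (1 / p) * (W * C') * f (x' k)))
            = (w k ^ (-(1 / p)) * w k ^ (1 / p)) * (W⁻¹ * W) * C' *
              (|f (x' k)| ^ (q - 1) * ((SignType.sign (f (x' k)) : ℝ) * f (x' k))) := by ring
          _ = C' * |f (x' k)| ^ q := by
              rw [h4, h5, h6, inv_mul_cancel₀ hW.ne']; ring
    have h3 : ∑ i, w i * |t i| ^ p ≤ S := by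
      apply Finset.sum_le_sum
      intro k _
      rcases (hw0 k).eq_or_lt with h | h
      · rw [← h, zero_mul]; exact Real.rpow_nonneg (abs_nonneg _) _
      · rw [ht]
        simp only
        have h8 : |(SignType.sign (f (x' k)) : ℝ) * |f (x' k)| ^ (q - 1) * w k ^ (-(1 / p))| ≤
            |f (x' k)| ^ (q - 1) * w k ^ (-(1 / p)) := by
          rw [abs_mul, abs_mul, abs_of_nonneg (Real.rpow_nonneg (abs_nonneg (f (x' k))) _),
            abs_of_nonneg (Real.rpow_nonneg h.le _)]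
          apply mul_le_mul_of_nonneg_right _ (Real.rpow_nonneg h.le _)
          apply mul_le_of_le_one_left (Real.rpow_nonneg (abs_nonneg _) _)
          rcases lt_trichotomy (f (x' k)) 0 with h9 | h9 | h9
          · rw [sign_neg h9]; simp
          · rw [h9]; simp
          · rw [sign_pos h9]; simp
        calc w k * |(SignType.sign (f (x' k)) : ℝ) * |f (x' k)| ^ (q - 1) * w k ^ (-(1 / p))| ^ p
            ≤ w k * (|f (x' k)| ^ (q - 1) * w k ^ (-(1 / p))) ^ p := by
              apply mul_le_mul_of_nonneg_left _ h.le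
              exact Real.rpow_le_rpow (abs_nonneg _) h8 hp0.le
          _ = |f (x' k)| ^ q := by
              rw [Real.mul_rpow (Real.rpow_nonneg (abs_nonneg _) _) (Real.rpow_nonneg h.le _),
                ← Real.rpow_mul (abs_nonneg _), ← Real.rpow_mul h.le]
              have h10 : (q - 1) * p = q := by
                have := hpq.sub_one_mul_conj
                have h11 := hpq.mul_eq_add
                nlinarith
              have h12 : -(1 / p) * p = -1 := by field_simp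
              rw [h10, h12, Real.rpow_neg_one]
              field_simp
    have h4 : C' * S ≤ C' * S ^ (1 / p) := by
      calc C' * S = f (∑ i, t i • W⁻¹ • xs i) := h2.symm
        _ ≤ ‖f (∑ i, t i • W⁻¹ • xs i)‖ := Real.le_norm_self _
        _ ≤ ‖f‖ * ‖∑ i, t i • W⁻¹ • xs i‖ := f.le_opNorm _
        _ ≤ 1 * ‖∑ i, t i • W⁻¹ • xs i‖ := mul_le_mul_of_nonneg_right hf (norm_nonneg _)
        _ ≤ C' * (∑ i, w i * |t i| ^ p) ^ (1 / p) := by rw [one_mul]; exact h1
        _ ≤ C' * S ^ (1 / p) := by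
            apply mul_le_mul_of_nonneg_left _ hC0.le
            apply Real.rpow_le_rpow _ h3 (by positivity)
            exact Finset.sum_nonneg fun i _ => mul_nonneg (hw0 i)
              (Real.rpow_nonneg (abs_nonneg _) _)
    have h5 : S ≤ S ^ (1 / p) := le_of_mul_le_mul_left h4 hC0
    by_contra h6
    push Not at h6
    have h7 : S ^ (1 / p) < S ^ (1 : ℝ) := by
      apply Real.rpow_lt_rpow_of_exponent_lt h6
      rw [div_lt_one hp0]; exact hp1
    rw [Real.rpow_one] at h7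
    linarith
  have h1 := hu n x' hweak
  calc ∑ k, ‖u (xs k)‖ = ∑ k, (W * C') * (w k ^ (1 / p) * ‖u (x' k)‖) := by
        refine Finset.sum_congr rfl fun k _ => ?_
        conv_lhs => rw [hxk k]
        rw [map_smul, norm_smul, Real.norm_of_nonneg
          (mul_nonneg (Real.rpow_nonneg (hw0 k) _) (mul_pos hW hC0).le)]
        ring
    _ = (W * C') * ∑ k, w k ^ (1 / p) * ‖u (x' k)‖ := by rw [Finset.mul_sum]
    _ ≤ (W * C') * ((∑ k, |w k ^ (1 / p)| ^ p) ^ (1 / p) *
          (∑ k, |‖u (x' k)‖| ^ q) ^ (1 / q)) := by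
        apply mul_le_mul_of_nonneg_left _ (mul_pos hW hC0).le
        exact Real.inner_le_Lp_mul_Lq _ _ _ hpq
    _ ≤ (W * C') * (1 * M) := by
        apply mul_le_mul_of_nonneg_left _ (mul_pos hW hC0).le
        apply mul_le_mul
        · apply Real.rpow_le_one
          · exact Finset.sum_nonneg fun k _ => Real.rpow_nonneg (abs_nonneg _) _
          · refine le_trans (le_of_eq ?_) hw1
            refine Finset.sum_congr rfl fun k _ => ?_
            rw [abs_of_nonneg (Real.rpow_nonneg (hw0 k) _), ← Real.rpow_mul (hw0 k),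
              one_div_mul_cancel hp0.ne', Real.rpow_one]
          · positivity
        · calc (∑ k, |‖u (x' k)‖| ^ q) ^ (1 / q) ≤ (M ^ q) ^ (1 / q) := by
                apply Real.rpow_le_rpow _ _ (by positivity)
                · exact Finset.sum_nonneg fun k _ => Real.rpow_nonneg (abs_nonneg _) _
                · simpa only [abs_norm] using h1
            _ = M := by
                rw [← Real.rpow_mul hM.le, mul_one_div_cancel hq0.ne', Real.rpow_one]
        · exact Real.rpow_nonneg (Finset.sum_nonneg fun k _ =>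
            Real.rpow_nonneg (abs_nonneg _) _) _
        · norm_num
    _ = C' * M * W := by ring

theorem gTop_lower (p q : ℝ) (hpq : p.HolderConjugate q) {Y X : Type} [NormedAddCommGroup Y]
    [NormedSpace ℝ Y] [NormedAddCommGroup X] [NormedSpace ℝ X] (C' M : ℝ) (hC' : 1 ≤ C')
    (hM : 0 < M) (hdom : LinfDom p C' X) (u : X →ₗ[ℝ] Y)
    (hu : ∀ (n : ℕ) (xs : Fin n → X),
      (∀ f : X →L[ℝ] ℝ, ‖f‖ ≤ 1 → ∑ k, |f (xs k)| ^ q ≤ 1) → ∑ k, ‖u (xs k)‖ ^ q ≤ M ^ q)
    (T : Y →L[ℝ] X) {m : ℕ} (al : Fin m → (Y →L[ℝ] ℝ)) (v : Fin m → Y)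
    (hT : ∀ y, u (T y) = ∑ j, al j y • v j) (htr : ∑ j, al j (v j) = 1) :
    ENNReal.ofReal (1 / (C' * M)) ≤ gTop T := by
  classical
  have hC0 : 0 < C' := by linarith
  unfold gTop
  refine le_iInf fun n => le_iInf fun ys => le_iInf fun xs => le_iInf fun hrep => ?_
  have hWtop : weakNorm 1 xs ≠ ⊤ := by
    have h1 : weakNorm 1 xs ≤ ENNReal.ofReal (∑ k, ‖xs k‖) := by
      refine iSup₂_le fun f hf1 => ENNReal.ofReal_le_ofReal ?_
      rw [div_one, Real.rpow_one]
      apply Finset.sum_le_sum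
      intro k _
      rw [Real.rpow_one]
      have h2 := f.le_opNorm (xs k)
      rw [Real.norm_eq_abs] at h2
      exact h2.trans (mul_le_of_le_one_left (norm_nonneg _) hf1)
    exact (lt_of_le_of_lt h1 ENNReal.ofReal_lt_top).ne
  have hatop : (⨆ k, ENNReal.ofReal ‖ys k‖) ≠ ⊤ := by
    have h1 : (⨆ k, ENNReal.ofReal ‖ys k‖) ≤ ENNReal.ofReal (∑ k, ‖ys k‖) := by
      refine iSup_le fun k => ENNReal.ofReal_le_ofReal ?_
      exact Finset.single_le_sum (f := fun k => ‖ys k‖) (fun i _ => norm_nonneg _)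
        (Finset.mem_univ k)
    exact (lt_of_le_of_lt h1 ENNReal.ofReal_lt_top).ne
  set Wr : ℝ := (weakNorm 1 xs).toReal with hWr
  have hWr0 : 0 ≤ Wr := ENNReal.toReal_nonneg
  have hWeq : weakNorm 1 xs = ENNReal.ofReal Wr := (ENNReal.ofReal_toReal hWtop).symm
  set a : ℝ := (⨆ k, ENNReal.ofReal ‖ys k‖).toReal with ha
  have ha0 : 0 ≤ a := ENNReal.toReal_nonneg
  have haeq : (⨆ k, ENNReal.ofReal ‖ys k‖) = ENNReal.ofReal a :=
    (ENNReal.ofReal_toReal hatop).symm
  have hya : ∀ k, ‖ys k‖ ≤ a := by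
    intro k
    have h1 : ENNReal.ofReal ‖ys k‖ ≤ ENNReal.ofReal a := by
      rw [← haeq]; exact le_iSup (fun k => ENNReal.ofReal ‖ys k‖) k
    exact (ENNReal.ofReal_le_ofReal_iff ha0).1 h1
  have hfh : ∀ f : X →L[ℝ] ℝ, ‖f‖ ≤ 1 → ∑ k, |f (xs k)| ≤ Wr := by
    intro f hf1
    have h2 : ENNReal.ofReal ((∑ k, |f (xs k)| ^ (1 : ℝ)) ^ (1 / (1 : ℝ))) ≤ weakNorm 1 xs :=
      le_iSup₂ (f := fun (f : X →L[ℝ] ℝ) (_ : ‖f‖ ≤ 1) =>
        ENNReal.ofReal ((∑ k, |f (xs k)| ^ (1 : ℝ)) ^ (1 / (1 : ℝ)))) _ hf1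
    rw [hWeq, ENNReal.ofReal_le_ofReal_iff hWr0] at h2
    simpa only [Real.rpow_one, div_one] using h2
  have htrace : ∑ k, ys k (u (xs k)) = 1 := by
    have h1 := trace_indep (fun k => (ys k : Y →ₗ[ℝ] ℝ)) (fun k => u (xs k))
      (fun j => (al j : Y →ₗ[ℝ] ℝ)) v (by
        intro y
        have h2 : ∑ i, ys i y • u (xs i) = u (T y) := by
          rw [hrep y, map_sum]
          simp
        simp only [ContinuousLinearMap.coe_coe]
        rw [h2, hT y])
    simp only [ContinuousLinearMap.coe_coe] at h1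
    rw [h1, htr]
  have hmain : ∀ W : ℝ, 0 < W → Wr ≤ W → 1 ≤ a * (C' * M * W) := by
    intro W hW hWW
    have h2 := sum_norm_le p q hpq C' M hC' hM hdom u hu n xs W hW
      (fun f hf => (hfh f hf).trans hWW)
    calc (1 : ℝ) = ∑ k, ys k (u (xs k)) := htrace.symm
      _ ≤ ∑ k, a * ‖u (xs k)‖ := by
          apply Finset.sum_le_sum
          intro k _
          exact (le_abs_self _).trans (((ys k).le_opNorm (u (xs k))).trans
            (mul_le_mul_of_nonneg_right (hya k) (norm_nonneg _)))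
      _ = a * ∑ k, ‖u (xs k)‖ := by rw [Finset.mul_sum]
      _ ≤ a * (C' * M * W) := mul_le_mul_of_nonneg_left h2 ha0
  have hWpos : 0 < Wr := by
    rcases hWr0.lt_or_eq with h | h
    · exact h
    · exfalso
      have hCM : 0 < C' * M := mul_pos hC0 hM
      have h1 := hmain (1 / (2 * (a * (C' * M) + 1))) (by positivity) (by rw [← h]; positivity)
      have h2 : a * (C' * M * (1 / (2 * (a * (C' * M) + 1)))) < 1 := by
        rw [mul_one_div, mul_div_assoc', div_lt_one (by positivity)]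
        nlinarith [mul_nonneg ha0 hCM.le]
      linarith
  have h1 := hmain Wr hWpos le_rfl
  rw [haeq, hWeq, ← ENNReal.ofReal_mul ha0]
  apply ENNReal.ofReal_le_ofReal
  rw [div_le_iff₀ (by positivity)]
  calc (1 : ℝ) ≤ a * (C' * M * Wr) := h1
    _ = a * Wr * (C' * M) := by ring

end Pool.Agent.H25.BAP
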