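import Pool.Agent.Helper37.BP.Defs2
import Pool.Agent.Helper61.BAP.TOW
import Pool.Agent.Helper61.BAP.TC
import Pool.Agent.Helper61.BAP.TE

/-! Part LIM of the BAP2 project (MP_6f6997_an). -/

open MeasureTheory
open scoped ENNReal NNReal

set_option maxSynthPendingDepth 3

namespace Pool.Agent.H25.BAP

open Pool.Agent.BAPp (sgn weakNorm gNorm FiniteRank)
open Pool.Agent.Helper37.BP
open Pool.Agent.Helper61.BAP

theorem limit (q r η C : ℝ) (hq : 1 ≤ q) (hr : 1 ≤ r) (hC : 0 ≤ C) (hη : 0 < η) {Z : Type}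
    [NormedAddCommGroup Z] [NormedSpace ℝ Z] [CompleteSpace Z]
    (hstep : ∀ O : TObj r C Z, ∃ (O' : TObj r C Z) (j : O.X →ₗᵢ[ℝ] O'.X),
      (∀ x, O'.Ψ (j x) = O.Ψ x) ∧ ExtStep q η j) (O : TObj r C Z) :
    ∃ (X : Type) (_ : NormedAddCommGroup X) (_ : NormedSpace ℝ X) (_ : CompleteSpace X)
      (ι : O.X →ₗᵢ[ℝ] X) (Ψ : X →L[ℝ] Z), Cot r C X ∧ ‖Ψ‖ ≤ 1 ∧ (∀ x, Ψ (ι x) = O.Ψ x) ∧
      LqEP q (4 / η) X := by
  have hseq : ∃ seq : ℕ → TObj r C Z, seq 0 = O ∧ ∀ n, ∃ j : (seq n).X →ₗᵢ[ℝ] (seq (n + 1)).X,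
      (∀ x, (seq (n + 1)).Ψ (j x) = (seq n).Ψ x) ∧ ExtStep q η j := by
    choose next j hj hext using hstep
    refine ⟨fun n => Nat.rec (motive := fun _ => TObj r C Z) O (fun _ P => next P) n, rfl,
      fun n => ⟨j _, hj _, hext _⟩⟩
  obtain ⟨seq, h0, hs⟩ := hseq
  subst h0
  choose jj hjj hext using hs
  obtain ⟨L, iL1, iL2, iL3, ι, Φ, h1, h2, h3, h4⟩ :=
    tower (fun n => (seq n).X) jj (fun n => (seq n).Ψ) (fun n => (seq n).norm_le)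
      (fun n x => hjj n x)
  refine ⟨L, iL1, iL2, iL3, ι 0, Φ, ?_, h3, fun x => h4 0 x, ?_⟩
  · exact cot_of_dense r C hr hC (fun n => (seq n).X) jj ι h1 h2 (fun n => (seq n).cot)
  · exact lqep_of_dense q η hq hη (fun n => (seq n).X) jj ι h1 h2 (fun n => hext n)

end Pool.Agent.H25.BAP
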